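import Mathlib

set_option autoImplicit false

/-!
Project Y318-ADM (owner helper318), MP_5f3cbe_lc, frozen statement S14767: admissibility is a
first-order property in the ring of holomorphic functions on the unit disc.
Statements of the self-contained sub-tasks.
-/

open Metric Set Filter Topology

namespace Pool.Agent.Y318.Adm

/-- holomorphic functions on the disc omitting `0` and `1` -/
def Om (g : ℂ → ℂ) : Prop :=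
  DifferentiableOn ℂ g (ball 0 1) ∧ ∀ z ∈ ball (0 : ℂ) 1, g z ≠ 0 ∧ g z ≠ 1

/-- some `g` omitting `0, 1` takes the value `α` at the origin and `-1` at the point `t ∈ (0,1)` -/
def Reach (α : ℂ) (t : ℝ) : Prop :=
  0 < t ∧ t < 1 ∧ ∃ g : ℂ → ℂ, Om g ∧ g 0 = α ∧ g (t : ℂ) = -1

/-- pseudohyperbolic distance -/
noncomputable def rho (a c : ℂ) : ℝ := ‖(a - c) / (1 - (starRingEnd ℂ) a * c)‖

/-- task SCH: Schottky's theorem with a uniform bound on every smaller disc -/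
def S_SCH : Prop := ∀ M r : ℝ, 0 ≤ r → r < 1 → ∃ B : ℝ, ∀ g : ℂ → ℂ, Om g → ‖g 0‖ ≤ M →
  ∀ z : ℂ, ‖z‖ ≤ r → ‖g z‖ ≤ B

/-- task STAB -/
def S_STAB : Prop := ∀ α₀ : ℂ, α₀ ≠ 0 → α₀ ≠ 1 → α₀ ≠ -1 → ∀ l : ℝ, 1 < l →
  ∃ δ : ℝ, 0 < δ ∧ ∀ α α' : ℂ, ‖α - α₀‖ < δ → ‖α' - α₀‖ < δ →
    ∀ t : ℝ, Reach α t → l * t < 1 → Reach α' (l * t)

/-- task DEC -/
def S_DEC : Prop := ∀ α : ℂ, α ≠ 0 → α ≠ 1 → α ≠ -1 → ∀ η : ℝ, 0 < η →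
  ∃ s : ℝ, 0 < s ∧ s < 1 ∧ ∀ t : ℝ, Reach α t →
    s < t ∧ ∃ β : ℂ, ‖β - α‖ < η ∧ Reach β ((t - s) / (1 - t * s))

/-- task SLIT -/
def S_SLIT : Prop := ∀ α : ℂ, α ≠ -1 → ¬ (α.im = 0 ∧ 0 ≤ α.re) → ∃ t : ℝ, Reach α t

/-- task MOB -/
def S_MOB : Prop := ∀ (α a c : ℂ), a ∈ ball (0 : ℂ) 1 → c ∈ ball (0 : ℂ) 1 → a ≠ c →
  ((∃ g : ℂ → ℂ, Om g ∧ g a = α ∧ g c = -1) ↔ Reach α (rho a c))

/-- task SWAP (prove it from `S_STAB`, `S_DEC`, `S_SLIT`) -/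
def S_SWAP : Prop := ∀ f : ℂ → ℂ, DifferentiableOn ℂ f (ball 0 1) →
  (∀ z ∈ ball (0 : ℂ) 1, f z ≠ 0 ∧ f z ≠ 1 ∧ f z ≠ -1) →
  (∀ a ∈ ball (0 : ℂ) 1, ∀ c ∈ ball (0 : ℂ) 1, a ≠ c →
    (Reach (f a) (rho a c) ↔ Reach (f c) (rho a c))) →
  ∀ z ∈ ball (0 : ℂ) 1, f z = f 0

/-- `s` is an automorphism of the disc with inverse `t` -/
def Aut (s t : ℂ → ℂ) : Prop :=
  DifferentiableOn ℂ s (ball 0 1) ∧ DifferentiableOn ℂ t (ball 0 1) ∧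
  MapsTo s (ball 0 1) (ball 0 1) ∧ MapsTo t (ball 0 1) (ball 0 1) ∧
  (∀ z ∈ ball (0 : ℂ) 1, t (s z) = z) ∧ (∀ z ∈ ball (0 : ℂ) 1, s (t z) = z)

/-- task HD -/
def S_HD : Prop := ∀ h : ℂ → ℂ, DifferentiableOn ℂ h (ball 0 1) → InjOn h (ball 0 1) →
  (∀ z ∈ ball (0 : ℂ) 1, deriv h z ≠ 0) →
  (0 : ℂ) ∈ h '' ball 0 1 →
  (∀ c d : ℂ, c * d = 1 → c ∉ h '' ball 0 1 ∨ d ∉ h '' ball 0 1) →
  (∀ c ∈ h '' ball 0 1, ∀ d ∈ h '' ball 0 1, c * d ∈ h '' ball 0 1) →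
  (∀ c : ℂ, c ∉ h '' ball 0 1 → ∀ d : ℂ, d ∉ h '' ball 0 1 → c * d ∉ h '' ball 0 1) →
  ∃ t : ℂ → ℂ, Aut h t

/-- The Nevanlinna characteristic, exactly as in the frozen statement -/
noncomputable def TT (f : ℂ → ℂ) (r : ℝ) : ℝ :=
  (2 * Real.pi)⁻¹ * ∫ θ in (0:ℝ)..(2 * Real.pi),
    Real.posLog ‖f ((r : ℂ) * Complex.exp ((θ : ℂ) * Complex.I))‖

/-- not admissible -/
def NonAdm (f : ℂ → ℂ) : Prop :=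
  Asymptotics.IsBigO (nhdsWithin (1:ℝ) (Set.Iio 1)) (TT f) (fun r : ℝ => Real.log (1 - r)⁻¹)

/-- the majorant property -/
def Maj (F : ℂ → ℂ) : Prop :=
  ∃ (P : ℂ → ℂ) (k : ℂ), DifferentiableOn ℂ P (ball 0 1) ∧
    (∀ x ∈ ball (0 : ℂ) 1, P ((1 + x) / 2) = k * P x) ∧
    ∀ w ∈ ball (0 : ℂ) 1, ∃ G : ℂ → ℂ, DifferentiableOn ℂ G (ball 0 1) ∧
      (∀ x ∈ ball (0 : ℂ) 1, 1 ≤ ‖G x‖ ∧ ‖F ((1 + w) / 2 * x)‖ ≤ ‖G x‖) ∧ ‖G 0‖ ≤ ‖P w‖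

/-- task TRIG: continuous functions on the circle are majorised by real parts of polynomials -/
def S_TRIG : Prop := ∀ φ : ℝ → ℝ, Continuous φ → (∀ θ, φ (θ + 2 * Real.pi) = φ θ) →
  ∃ V : Polynomial ℂ, (∀ θ : ℝ, φ θ ≤ (V.eval (Complex.exp ((θ : ℂ) * Complex.I))).re) ∧
    (V.eval 0).re ≤ (2 * Real.pi)⁻¹ * (∫ θ in (0:ℝ)..(2 * Real.pi), φ θ) + 1

/-- task EX (prove it from `S_TRIG`) -/
def S_EX : Prop := ∀ F : ℂ → ℂ, DifferentiableOn ℂ F (ball 0 1) → NonAdm F → Maj F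

/-- task UP -/
def S_UP : Prop := ∀ f s t : ℂ → ℂ, DifferentiableOn ℂ f (ball 0 1) → Aut s t →
  Maj (fun w => f (t w)) → NonAdm f

end Pool.Agent.Y318.Adm
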