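import Pool.Agent.Y318.Adm.Sem
import Pool.Agent.Y239.Adm.Sch
import Pool.Agent.Y239.Adm.Stab
import Pool.Agent.Y239.Adm.Dec
import Pool.Agent.Y710.Adm.Mob
import Pool.Agent.Y710.Adm.Hd
import Pool.Agent.Y359.Adm.Ex
import Pool.Agent.Y304.Adm.Slit
import Pool.Agent.Y304.Adm.Trig
import Pool.Agent.Y516.Adm.Swap
import Pool.Agent.Y516.Adm.Up

set_option autoImplicit false

namespace Pool.Agent.Y318.Adm

theorem stab : S_STAB := Pool.Agent.Y239.Adm.Stab.t Pool.Agent.Y239.Adm.Sch.t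
theorem dec : S_DEC := Pool.Agent.Y239.Adm.Dec.t Pool.Agent.Y239.Adm.Sch.t
theorem mob : S_MOB := Pool.Agent.Y710.Adm.mob
theorem hd : S_HD := Pool.Agent.Y710.Adm.hd
theorem ex : S_EX := Pool.Agent.Y359.Adm.Ex.t Pool.Agent.Y304.Adm.trig
theorem swap : S_SWAP := Pool.Agent.Y516.Adm.swap stab dec Pool.Agent.Y304.Adm.slit

theorem up' : S_UP := Pool.Agent.Y516.Adm.up

end Pool.Agent.Y318.Adm
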