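import Mathlib

set_option autoImplicit false

/-!
The formula: defined relations on a commutative ring, and first-order formulas of the language of
rings which define them.
-/

open FirstOrder FirstOrder.Language

namespace Pool.Agent.Y318.Adm

section rel

variable {R : Type*} [CommRing R]

/-- unit -/
def Un (x : R) : Prop := ∃ y, x * y = 1

/-- divides -/
def Dv (p f : R) : Prop := ∃ q, f = p * q

/-- point (irreducible element) -/
def Pt (p : R) : Prop := ¬ Un p ∧ ∀ x y, p = x * y → Un x ∨ Un y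

/-- omits `0` and `1` -/
def FF (g : R) : Prop := Un g ∧ Un (g - 1)

def EE (a c f : R) : Prop := ∃ g, FF g ∧ Dv a (g - f) ∧ Dv c (g + 1)

def C0 (f : R) : Prop := Un f ∧ Un (f - 1) ∧ Un (f + 1) ∧
  ∀ a, Pt a → ∀ c, Pt c → (EE a c f ↔ EE c a f)

/-- constant -/
def CC (f : R) : Prop := ∃ u, C0 u ∧ ∃ v, C0 v ∧ f = u + v

/-- `c` is a constant in the image of `h` -/
def Im (h c : R) : Prop := CC c ∧ ¬ Un (h - c)

/-- coordinate -/
def Hd (h : R) : Prop := ¬ Un h ∧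
  (∀ c, CC c → ∀ d, CC d → c * d = 1 → Un (h - c) ∨ Un (h - d)) ∧
  (∀ c, CC c → ∀ d, CC d → ¬ Un (h - c) → ¬ Un (h - d) → ¬ Un (h - c * d)) ∧
  (∀ c, CC c → ∀ d, CC d → Un (h - c) → Un (h - d) → Un (h - c * d)) ∧
  (∀ c, CC c → Un (h - c) ∨ Pt (h - c))

/-- `|y| < |z|` for constants `y, z` (via the coordinate `h`) -/
def Lt (h y z : R) : Prop := Un z ∧ ∃ t, Im h t ∧ y = t * z

/-- the value of `f` at the point `h = x` is `y` -/
def Vl (h x f y : R) : Prop := CC y ∧ Dv (h - x) (f - y)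

def PA (h p k : R) : Prop := ∀ x, Im h x → ∀ y, Vl h x p y → Dv (h + h - (1 + x)) (p - k * y)

def B1 (h w g f : R) : Prop := ∀ x, Im h x → ∀ y, Vl h x g y →
  ¬ Lt h y 1 ∧ ∀ z, CC z → Dv (h + h - (1 + w) * x) (f - z) → ¬ Lt h y z

def B2 (h w g p : R) : Prop := ∀ y, Vl h 0 g y → ∀ z, Vl h w p z → ¬ Lt h z y

/-- not admissible -/
def NA (f : R) : Prop := ∃ h, Hd h ∧ ∃ k, CC k ∧ ∃ p, PA h p k ∧
  ∀ w, Im h w → ∃ g, Un g ∧ B1 h w g f ∧ B2 h w g p

end rel

section syn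

/-- terms with `n` variables -/
abbrev Trm (n : ℕ) := Language.ring.Term (Empty ⊕ Fin n)

/-- formulas with `n` variables -/
abbrev Frm (n : ℕ) := Language.ring.BoundedFormula Empty n

variable {n : ℕ}

/-- weakening -/
def up (t : Trm n) : Trm (n + 1) := t.relabel (Sum.map id Fin.castSucc)

/-- the new variable -/
def nv (n : ℕ) : Trm (n + 1) := Term.var (Sum.inr (Fin.last n))

def fEq (s t : Trm n) : Frm n := s.bdEqual t
def fUn (t : Trm n) : Frm n := (fEq (up t * nv n) 1).ex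
def fDv (p f : Trm n) : Frm n := (fEq (up f) (up p * nv n)).ex
def fPt (p : Trm n) : Frm n := (fUn p).not ⊓
  ((fEq (up (up p)) (up (nv n) * nv (n+1))).imp (fUn (up (nv n)) ⊔ fUn (nv (n+1)))).all.all
def fFF (g : Trm n) : Frm n := fUn g ⊓ fUn (g + -1)
def fEE (a c f : Trm n) : Frm n := (fFF (nv n) ⊓ (fDv (up a) (nv n + - up f) ⊓ fDv (up c) (nv n + 1))).ex
def fC0 (f : Trm n) : Frm n := fUn f ⊓ (fUn (f + -1) ⊓ (fUn (f + 1) ⊓
  ((fPt (nv n)).imp ((fPt (nv (n+1))).imp ((fEE (up (nv n)) (nv (n+1)) (up (up f))).iff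
    (fEE (nv (n+1)) (up (nv n)) (up (up f))))).all).all))
def fCC (f : Trm n) : Frm n := (fC0 (nv n) ⊓ (fC0 (nv (n+1)) ⊓
  fEq (up (up f)) (up (nv n) + nv (n+1))).ex).ex
def fIm (h c : Trm n) : Frm n := fCC c ⊓ (fUn (h + - c)).not
def fHd (h : Trm n) : Frm n := (fUn h).not ⊓
  (((fCC (nv n)).imp ((fCC (nv (n+1))).imp ((fEq (up (nv n) * nv (n+1)) 1).imp
    (fUn (up (up h) + - up (nv n)) ⊔ fUn (up (up h) + - nv (n+1))))).all).all ⊓
  (((fCC (nv n)).imp ((fCC (nv (n+1))).imp ((fUn (up (up h) + - up (nv n))).not.imp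
    ((fUn (up (up h) + - nv (n+1))).not.imp
      (fUn (up (up h) + - (up (nv n) * nv (n+1)))).not))).all).all ⊓
  (((fCC (nv n)).imp ((fCC (nv (n+1))).imp ((fUn (up (up h) + - up (nv n))).imp
    ((fUn (up (up h) + - nv (n+1))).imp
      (fUn (up (up h) + - (up (nv n) * nv (n+1))))))).all).all ⊓
  ((fCC (nv n)).imp (fUn (up h + - nv n) ⊔ fPt (up h + - nv n))).all)))
def fLt (h y z : Trm n) : Frm n := fUn z ⊓ (fIm (up h) (nv n) ⊓ fEq (up y) (nv n * up z)).ex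
def fVl (h x f y : Trm n) : Frm n := fCC y ⊓ fDv (h + - x) (f + - y)
def fPA (h p k : Trm n) : Frm n := ((fIm (up h) (nv n)).imp
  ((fVl (up (up h)) (up (nv n)) (up (up p)) (nv (n+1))).imp
    (fDv (up (up h) + up (up h) + - (1 + up (nv n)))
      (up (up p) + - (up (up k) * nv (n+1))))).all).all
def fB1 (h w g f : Trm n) : Frm n := ((fIm (up h) (nv n)).imp
  ((fVl (up (up h)) (up (nv n)) (up (up g)) (nv (n+1))).imp
    ((fLt (up (up h)) (nv (n+1)) 1).not ⊓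
      ((fCC (nv (n+2))).imp ((fDv (up (up (up h)) + up (up (up h)) +
          - ((1 + up (up (up w))) * up (up (nv n)))) (up (up (up f)) + - nv (n+2))).imp
        (fLt (up (up (up h))) (up (nv (n+1))) (nv (n+2))).not)).all)).all).all
def fB2 (h w g p : Trm n) : Frm n := ((fVl (up h) 0 (up g) (nv n)).imp
  ((fVl (up (up h)) (up (up w)) (up (up p)) (nv (n+1))).imp
    (fLt (up (up h)) (nv (n+1)) (up (nv n))).not).all).all
def fNA (f : Trm n) : Frm n := (fHd (nv n) ⊓ (fCC (nv (n+1)) ⊓ (fPA (up (up (nv n))) (nv (n+2))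
    (up (nv (n+1))) ⊓ ((fIm (up (up (up (nv n)))) (nv (n+3))).imp (fUn (nv (n+4)) ⊓
      (fB1 (up (up (up (up (nv n))))) (up (nv (n+3))) (nv (n+4)) (up (up (up (up (up f))))) ⊓
       fB2 (up (up (up (up (nv n))))) (up (nv (n+3))) (nv (n+4)) (up (up (nv (n+2)))))).ex).all).ex).ex).ex

end syn

section sem

variable {R : Type*} [CommRing R] [FirstOrder.Ring.CompatibleRing R] {n : ℕ}

def ev (xs : Fin n → R) (t : Trm n) : R := t.realize (Sum.elim Empty.elim xs)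

def sat (xs : Fin n → R) (φ : Frm n) : Prop := φ.Realize Empty.elim xs

@[simp] lemma ev_up (xs : Fin n → R) (x : R) (t : Trm n) :
    ev (Fin.snoc xs x : Fin (n+1) → R) (up t) = ev xs t := by
  unfold ev up
  rw [Term.realize_relabel]
  congr 1
  ext i
  rcases i with i | i
  · exact i.elim
  · simp

@[simp] lemma ev_nv (xs : Fin n → R) (x : R) :
    ev (Fin.snoc xs x : Fin (n+1) → R) (nv n) = x := by
  simp [ev, nv]

@[simp] lemma ev_add (xs : Fin n → R) (s t : Trm n) : ev xs (s + t) = ev xs s + ev xs t := by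
  simp [ev]
@[simp] lemma ev_mul (xs : Fin n → R) (s t : Trm n) : ev xs (s * t) = ev xs s * ev xs t := by
  simp [ev]
@[simp] lemma ev_neg (xs : Fin n → R) (s : Trm n) : ev xs (-s) = - ev xs s := by
  simp [ev]
@[simp] lemma ev_one (xs : Fin n → R) : ev xs (1 : Trm n) = 1 := by
  simp [ev]
@[simp] lemma ev_zero (xs : Fin n → R) : ev xs (0 : Trm n) = 0 := by
  simp [ev]

@[simp] lemma sat_eq (xs : Fin n → R) (s t : Trm n) : sat xs (fEq s t) ↔ ev xs s = ev xs t := by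
  simp [sat, fEq, ev]
@[simp] lemma sat_inf (xs : Fin n → R) (φ ψ : Frm n) : sat xs (φ ⊓ ψ) ↔ sat xs φ ∧ sat xs ψ := by
  simp [sat]
@[simp] lemma sat_sup (xs : Fin n → R) (φ ψ : Frm n) : sat xs (φ ⊔ ψ) ↔ sat xs φ ∨ sat xs ψ := by
  simp [sat]
@[simp] lemma sat_not (xs : Fin n → R) (φ : Frm n) : sat xs (φ.not) ↔ ¬ sat xs φ := by
  simp [sat]
@[simp] lemma sat_imp (xs : Fin n → R) (φ ψ : Frm n) :
    sat xs (φ.imp ψ) ↔ (sat xs φ → sat xs ψ) := by
  simp [sat]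
@[simp] lemma sat_iff (xs : Fin n → R) (φ ψ : Frm n) :
    sat xs (φ.iff ψ) ↔ (sat xs φ ↔ sat xs ψ) := by
  simp [sat]
@[simp] lemma sat_ex (xs : Fin n → R) (φ : Frm (n+1)) :
    sat xs (φ.ex) ↔ ∃ x, sat (Fin.snoc xs x : Fin (n+1) → R) φ := by
  simp [sat]
@[simp] lemma sat_all (xs : Fin n → R) (φ : Frm (n+1)) :
    sat xs (φ.all) ↔ ∀ x, sat (Fin.snoc xs x : Fin (n+1) → R) φ := by
  simp [sat]

@[simp] lemma sat_Un (xs : Fin n → R) (t : Trm n) : sat xs (fUn t) ↔ Un (ev xs t) := by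
  simp [fUn, Un]
@[simp] lemma sat_Dv (xs : Fin n → R) (s t : Trm n) : sat xs (fDv s t) ↔ Dv (ev xs s) (ev xs t) := by
  simp [fDv, Dv]
@[simp] lemma sat_Pt (xs : Fin n → R) (t : Trm n) : sat xs (fPt t) ↔ Pt (ev xs t) := by
  simp [fPt, Pt]
@[simp] lemma sat_FF (xs : Fin n → R) (t : Trm n) : sat xs (fFF t) ↔ FF (ev xs t) := by
  simp [fFF, FF, sub_eq_add_neg]
@[simp] lemma sat_EE (xs : Fin n → R) (a c f : Trm n) :
    sat xs (fEE a c f) ↔ EE (ev xs a) (ev xs c) (ev xs f) := by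
  simp [fEE, EE, sub_eq_add_neg]
@[simp] lemma sat_C0 (xs : Fin n → R) (t : Trm n) : sat xs (fC0 t) ↔ C0 (ev xs t) := by
  simp [fC0, C0, sub_eq_add_neg]
@[simp] lemma sat_CC (xs : Fin n → R) (t : Trm n) : sat xs (fCC t) ↔ CC (ev xs t) := by
  simp [fCC, CC]
@[simp] lemma sat_Im (xs : Fin n → R) (h c : Trm n) :
    sat xs (fIm h c) ↔ Im (ev xs h) (ev xs c) := by
  simp [fIm, Im, sub_eq_add_neg]
@[simp] lemma sat_Hd (xs : Fin n → R) (t : Trm n) : sat xs (fHd t) ↔ Hd (ev xs t) := by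
  simp [fHd, Hd, sub_eq_add_neg]
@[simp] lemma sat_Lt (xs : Fin n → R) (h y z : Trm n) :
    sat xs (fLt h y z) ↔ Lt (ev xs h) (ev xs y) (ev xs z) := by
  simp [fLt, Lt]
@[simp] lemma sat_Vl (xs : Fin n → R) (h x f y : Trm n) :
    sat xs (fVl h x f y) ↔ Vl (ev xs h) (ev xs x) (ev xs f) (ev xs y) := by
  simp [fVl, Vl, sub_eq_add_neg]
@[simp] lemma sat_PA (xs : Fin n → R) (h p k : Trm n) :
    sat xs (fPA h p k) ↔ PA (ev xs h) (ev xs p) (ev xs k) := by
  simp [fPA, PA, sub_eq_add_neg]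
@[simp] lemma sat_B1 (xs : Fin n → R) (h w g f : Trm n) :
    sat xs (fB1 h w g f) ↔ B1 (ev xs h) (ev xs w) (ev xs g) (ev xs f) := by
  simp [fB1, B1, sub_eq_add_neg]
@[simp] lemma sat_B2 (xs : Fin n → R) (h w g p : Trm n) :
    sat xs (fB2 h w g p) ↔ B2 (ev xs h) (ev xs w) (ev xs g) (ev xs p) := by
  simp [fB2, B2]
@[simp] lemma sat_NA (xs : Fin n → R) (f : Trm n) :
    sat xs (fNA f) ↔ NA (ev xs f) := by
  simp [fNA, NA]

end sem

/-- the formula defining admissibility -/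
noncomputable def theFormula : Language.ring.Formula (Fin 1) :=
  (fNA (nv 0)).not.toFormula.relabel (Sum.elim (fun e : Empty => e.elim) id)

theorem realize_theFormula (R : Type*) [CommRing R] (f : R) :
    @Formula.Realize Language.ring R (FirstOrder.Ring.compatibleRingOfRing R).toStructure
      (Fin 1) theFormula (fun _ => f) ↔ ¬ NA f := by
  letI := FirstOrder.Ring.compatibleRingOfRing R
  show Formula.Realize theFormula (fun _ => f) ↔ ¬ NA f
  unfold theFormula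
  rw [Formula.realize_relabel, BoundedFormula.realize_toFormula]
  have h1 := sat_not (R := R) (fun _ : Fin 1 => f) (fNA (nv 0))
  rw [sat_NA] at h1
  have h2 : ev (fun _ : Fin 1 => f) (nv 0) = f := by simp [ev, nv]
  rw [h2] at h1
  rw [← h1]
  unfold sat
  apply iff_of_eq
  congr 1
  ext i
  exact i.elim

end Pool.Agent.Y318.Adm
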