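import Pool.Agent.Y318.Adm.Stm
import Pool.Agent.Y318.Adm.Logic

set_option autoImplicit false

open Metric Set Filter Topology

namespace Pool.Agent.Y318.Adm

/-- the generating set of the frozen statement -/
abbrev HSet : Set (ℂ → ℂ) := {g : ℂ → ℂ | DifferentiableOn ℂ g (Metric.ball (0:ℂ) 1) ∧
                ∀ z ∉ Metric.ball (0:ℂ) 1, g z = g 0}

/-- the ring of the frozen statement -/
abbrev HD : Type := ↥(Subring.closure HSet)

lemma mem_closure_iff (f : ℂ → ℂ) : f ∈ Subring.closure HSet ↔ f ∈ HSet := by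
  constructor
  · intro h
    refine Subring.closure_induction (p := fun g _ => g ∈ HSet) ?_ ?_ ?_ ?_ ?_ ?_ h
    · intro x hx; exact hx
    · exact ⟨differentiableOn_const 0, fun z _ => rfl⟩
    · exact ⟨differentiableOn_const 1, fun z _ => rfl⟩
    · intro x y _ _ hx hy
      exact ⟨hx.1.add hy.1, fun z hz => by simp [hx.2 z hz, hy.2 z hz]⟩
    · intro x _ hx
      exact ⟨hx.1.neg, fun z hz => by simp [hx.2 z hz]⟩
    · intro x y _ _ hx hy
      exact ⟨hx.1.mul hy.1, fun z hz => by simp [hx.2 z hz, hy.2 z hz]⟩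
  · intro h; exact Subring.subset_closure h

lemma HD.diff (f : HD) : DifferentiableOn ℂ f.1 (ball 0 1) := ((mem_closure_iff f.1).1 f.2).1

lemma HD.off (f : HD) (z : ℂ) (hz : z ∉ ball (0:ℂ) 1) : f.1 z = f.1 0 :=
  ((mem_closure_iff f.1).1 f.2).2 z hz

lemma zero_mem_ball : (0:ℂ) ∈ ball (0:ℂ) 1 := mem_ball_self one_pos

lemma HD.ext' (f g : HD) (h : ∀ z ∈ ball (0:ℂ) 1, f.1 z = g.1 z) : f = g := by
  apply Subtype.ext
  funext z
  by_cases hz : z ∈ ball (0:ℂ) 1
  · exact h z hz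
  · rw [f.off z hz, g.off z hz]
    exact h 0 zero_mem_ball

open Classical in
/-- element of the ring from a holomorphic function -/
noncomputable def mk (F : ℂ → ℂ) (hF : DifferentiableOn ℂ F (ball 0 1)) : HD :=
  ⟨fun z => if z ∈ ball (0:ℂ) 1 then F z else F 0, by
    rw [mem_closure_iff]
    refine ⟨hF.congr fun z hz => by simp only [hz, if_true], fun z hz => ?_⟩
    simp only [hz, if_false, zero_mem_ball, if_true]⟩

@[simp] lemma mk_apply (F : ℂ → ℂ) (hF : DifferentiableOn ℂ F (ball 0 1)) (z : ℂ)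
    (hz : z ∈ ball (0:ℂ) 1) : (mk F hF).1 z = F z := by
  simp only [mk, hz, if_true]

/-- constants -/
noncomputable def cst (α : ℂ) : HD := mk (fun _ => α) (differentiableOn_const α)

@[simp] lemma cst_apply (α : ℂ) (z : ℂ) : (cst α).1 z = α := by
  simp only [cst, mk]
  split_ifs <;> rfl

@[simp] lemma coe_add (f g : HD) (z : ℂ) : (f + g).1 z = f.1 z + g.1 z := rfl
@[simp] lemma coe_sub (f g : HD) (z : ℂ) : (f - g).1 z = f.1 z - g.1 z := rfl
@[simp] lemma coe_mul (f g : HD) (z : ℂ) : (f * g).1 z = f.1 z * g.1 z := rfl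
@[simp] lemma coe_neg (f : HD) (z : ℂ) : (-f).1 z = - f.1 z := rfl
@[simp] lemma coe_one (z : ℂ) : (1 : HD).1 z = 1 := rfl
@[simp] lemma coe_zero (z : ℂ) : (0 : HD).1 z = 0 := rfl

lemma cst_zero : cst 0 = 0 := HD.ext' _ _ fun z _ => by simp
lemma cst_one : cst 1 = 1 := HD.ext' _ _ fun z _ => by simp
lemma cst_mul (a b : ℂ) : cst (a * b) = cst a * cst b := HD.ext' _ _ fun z _ => by simp
lemma cst_add (a b : ℂ) : cst (a + b) = cst a + cst b := HD.ext' _ _ fun z _ => by simp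
lemma cst_inj {a b : ℂ} (h : cst a = cst b) : a = b := by
  have := congrArg (fun f : HD => f.1 0) h
  simpa using this

lemma Un_iff (f : HD) : Un f ↔ ∀ z ∈ ball (0:ℂ) 1, f.1 z ≠ 0 := by
  constructor
  · rintro ⟨y, hy⟩ z hz h0
    have := congrArg (fun f : HD => f.1 z) hy
    simp [h0] at this
  · intro h
    refine ⟨mk (fun z => (f.1 z)⁻¹) (f.diff.inv h), HD.ext' _ _ fun z hz => ?_⟩
    rw [coe_mul, mk_apply _ _ _ hz, coe_one, mul_inv_cancel₀ (h z hz)]

lemma Un_cst (α : ℂ) : Un (cst α) ↔ α ≠ 0 := by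
  rw [Un_iff]
  constructor
  · intro h; simpa using h 0 zero_mem_ball
  · intro h z _; simpa using h

/-- the function `z - a` -/
noncomputable def pt (a : ℂ) : HD := mk (fun z => z - a) (differentiableOn_id.sub_const a)

lemma pt_apply (a z : ℂ) (hz : z ∈ ball (0:ℂ) 1) : (pt a).1 z = z - a := mk_apply _ _ _ hz

lemma Dv_pt (a : ℂ) (ha : a ∈ ball (0:ℂ) 1) (f : HD) : Dv (pt a) f ↔ f.1 a = 0 := by
  constructor
  · rintro ⟨q, rfl⟩
    simp [pt_apply a a ha]
  · intro h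
    have hd : DifferentiableOn ℂ (dslope f.1 a) (ball 0 1) :=
      (Complex.differentiableOn_dslope (isOpen_ball.mem_nhds ha)).2 f.diff
    refine ⟨mk _ hd, HD.ext' _ _ fun z hz => ?_⟩
    rw [coe_mul, mk_apply _ _ _ hz, pt_apply _ _ hz]
    have := sub_smul_dslope f.1 a z
    rw [smul_eq_mul, h, sub_zero] at this
    exact this.symm

/-- `p` has exactly one zero `a` in the disc, and it is simple -/
def SZ (p : HD) (a : ℂ) : Prop := a ∈ ball (0:ℂ) 1 ∧ ∃ u, Un u ∧ p = pt a * u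

lemma SZ.dv {p : HD} {a : ℂ} (h : SZ p a) (f : HD) : Dv p f ↔ f.1 a = 0 := by
  obtain ⟨ha, u, ⟨v, hv⟩, rfl⟩ := h
  rw [← Dv_pt a ha]
  constructor
  · rintro ⟨q, rfl⟩
    exact ⟨u * q, by ring⟩
  · rintro ⟨q, rfl⟩
    exact ⟨v * q, by
      calc pt a * q = pt a * (u * v) * q := by rw [hv]; ring
        _ = _ := by ring⟩

lemma SZ.zero_iff {p : HD} {a : ℂ} (h : SZ p a) (z : ℂ) (hz : z ∈ ball (0:ℂ) 1) :
    p.1 z = 0 ↔ z = a := by
  obtain ⟨ha, u, hu, rfl⟩ := h
  rw [coe_mul, pt_apply _ _ hz, mul_eq_zero, sub_eq_zero]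
  constructor
  · rintro (h | h)
    · exact h
    · exact absurd h ((Un_iff u).1 hu z hz)
  · exact Or.inl

lemma SZ.deriv_ne {p : HD} {a : ℂ} (h : SZ p a) : deriv p.1 a ≠ 0 := by
  obtain ⟨ha, u, hu, rfl⟩ := h
  have hn : ball (0:ℂ) 1 ∈ 𝓝 a := isOpen_ball.mem_nhds ha
  have h1 : (pt a * u).1 =ᶠ[𝓝 a] fun z => (z - a) * u.1 z := by
    filter_upwards [hn] with z hz
    rw [coe_mul, pt_apply _ _ hz]
  rw [h1.deriv_eq]
  have h2 : HasDerivAt (fun z : ℂ => (z - a) * u.1 z) (1 * u.1 a + (a - a) * deriv u.1 a) a :=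
    ((hasDerivAt_id a).sub_const a).mul (u.diff.differentiableAt hn).hasDerivAt
  rw [h2.deriv]
  simpa using (Un_iff u).1 hu a ha

lemma Un.mul {x y : HD} (hx : Un x) (hy : Un y) : Un (x * y) := by
  rw [Un_iff] at *
  intro z hz
  exact mul_ne_zero (hx z hz) (hy z hz)

lemma Un.of_mul {x y : HD} (h : Un (x * y)) : Un x ∧ Un y := by
  rw [Un_iff] at h
  constructor <;> rw [Un_iff] <;> intro z hz h0 <;> exact h z hz (by simp [h0])

lemma SZ.pt {p : HD} {a : ℂ} (h : SZ p a) : Pt p := by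
  obtain ⟨ha, u, hu, rfl⟩ := h
  refine ⟨fun hun => ?_, fun x y hxy => ?_⟩
  · have := (Un_iff _).1 hun a ha
    simp [pt_apply a a ha] at this
  · obtain ⟨v, hv⟩ := hu
    have hpt : Adm.pt a = x * (y * v) := by
      calc Adm.pt a = (Adm.pt a * u) * v := by rw [mul_assoc, hv, mul_one]
        _ = _ := by rw [hxy]; ring
    have h0 : x.1 a * (y.1 a * v.1 a) = 0 := by
      have := congrArg (fun f : HD => f.1 a) hpt
      simp only [coe_mul, pt_apply a a ha, sub_self] at this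
      exact this.symm
    -- one of them vanishes at `a`
    have key : ∀ x y : HD, Adm.pt a = x * y → x.1 a = 0 → Un y := by
      intro x y h hx
      obtain ⟨q, hq⟩ := (Dv_pt a ha x).2 hx
      rw [Un_iff]
      have h2 : ∀ z ∈ ball (0:ℂ) 1, z ≠ a → q.1 z * y.1 z = 1 := by
        intro z hz hza
        have := congrArg (fun f : HD => f.1 z) h
        simp only [coe_mul, pt_apply _ _ hz, hq] at this
        have h3 : (z - a) * (q.1 z * y.1 z - 1) = 0 := by linear_combination -this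
        rcases mul_eq_zero.1 h3 with h4 | h4
        · exact absurd (sub_eq_zero.1 h4) hza
        · exact sub_eq_zero.1 h4
      have h5 : q * y = 1 := by
        have hcont : ContinuousAt (fun z => q.1 z * y.1 z) a :=
          ((q.diff.mul y.diff).differentiableAt (isOpen_ball.mem_nhds ha)).continuousAt
        have h6 : q.1 a * y.1 a = 1 := by
          have t1 : Tendsto (fun z => q.1 z * y.1 z) (𝓝[≠] a) (𝓝 (q.1 a * y.1 a)) :=
            hcont.tendsto.mono_left nhdsWithin_le_nhds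
          have t2 : Tendsto (fun z => q.1 z * y.1 z) (𝓝[≠] a) (𝓝 1) := by
            refine tendsto_const_nhds.congr' ?_
            have : ∀ᶠ z in 𝓝[≠] a, z ∈ ball (0:ℂ) 1 :=
              mem_nhdsWithin_of_mem_nhds (isOpen_ball.mem_nhds ha)
            filter_upwards [this, self_mem_nhdsWithin] with z hz hza
            exact (h2 z hz hza).symm
          exact tendsto_nhds_unique t1 t2
        refine HD.ext' _ _ fun z hz => ?_
        by_cases hza : z = a
        · subst hza; simpa using h6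
        · simpa using h2 z hz hza
      intro z hz hy
      have := congrArg (fun f : HD => f.1 z) h5
      simp [hy] at this
    rcases mul_eq_zero.1 h0 with h1 | h1
    · right
      exact (Un.of_mul (key x (y * v) hpt h1)).1
    · left
      exact key (y * v) x (by rw [hpt]; ring) (by simpa using h1)

lemma pt_SZ (a : ℂ) (ha : a ∈ ball (0:ℂ) 1) : SZ (pt a) a :=
  ⟨ha, 1, ⟨1, by ring⟩, by ring⟩

lemma Pt.sz {p : HD} (h : Pt p) : ∃ a, SZ p a := by
  obtain ⟨h1, h2⟩ := h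
  rw [Un_iff] at h1
  push Not at h1
  obtain ⟨a, ha, h0⟩ := h1
  obtain ⟨q, hq⟩ := (Dv_pt a ha p).2 h0
  rcases h2 _ _ hq with h3 | h3
  · exfalso
    have := (Un_iff _).1 h3 a ha
    simp [pt_apply a a ha] at this
  · exact ⟨a, ha, q, h3, hq⟩

lemma rho_comm (a c : ℂ) : rho a c = rho c a := by
  unfold rho
  rw [norm_div, norm_div, norm_sub_rev a c]
  congr 1
  rw [← Complex.norm_conj (1 - (starRingEnd ℂ) a * c)]
  simp [mul_comm]

lemma FF_iff (g : HD) : FF g ↔ Om g.1 := by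
  unfold FF Om
  rw [Un_iff, Un_iff]
  constructor
  · rintro ⟨h1, h2⟩
    refine ⟨g.diff, fun z hz => ⟨h1 z hz, fun h => h2 z hz ?_⟩⟩
    simp [h]
  · rintro ⟨_, h⟩
    refine ⟨fun z hz => (h z hz).1, fun z hz h0 => (h z hz).2 ?_⟩
    simpa [sub_eq_zero] using h0

lemma EE_iff {p q : HD} {a c : ℂ} (hp : SZ p a) (hq : SZ q c) (f : HD) :
    EE p q f ↔ ∃ g : ℂ → ℂ, Om g ∧ g a = f.1 a ∧ g c = -1 := by
  unfold EE
  constructor
  · rintro ⟨g, h1, h2, h3⟩
    rw [hp.dv] at h2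
    rw [hq.dv] at h3
    refine ⟨g.1, (FF_iff g).1 h1, ?_, ?_⟩
    · simpa [sub_eq_zero] using h2
    · simpa [add_eq_zero_iff_eq_neg] using h3
  · rintro ⟨g, h1, h2, h3⟩
    refine ⟨mk g h1.1, ?_, ?_, ?_⟩
    · rw [FF_iff]
      refine ⟨(mk g h1.1).diff, fun z hz => ?_⟩
      rw [mk_apply _ _ _ hz]
      exact h1.2 z hz
    · rw [hp.dv, coe_sub, mk_apply _ _ _ hp.1, h2, sub_self]
    · rw [hq.dv, coe_add, mk_apply _ _ _ hq.1, h3]
      simp

lemma C0_cst (hmob : S_MOB) (α : ℂ) (h0 : α ≠ 0) (h1 : α ≠ 1) (h2 : α ≠ -1) : C0 (cst α) := by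
  refine ⟨?_, ?_, ?_, ?_⟩
  · rwa [Un_cst]
  · rw [Un_iff]; intro z _; simpa [sub_eq_zero] using h1
  · rw [Un_iff]; intro z _; simpa [add_eq_zero_iff_eq_neg] using h2
  · intro p hp q hq
    obtain ⟨a, ha⟩ := hp.sz
    obtain ⟨c, hc⟩ := hq.sz
    rw [EE_iff ha hc, EE_iff hc ha]
    simp only [cst_apply]
    by_cases hac : a = c
    · subst hac; rfl
    · rw [hmob α a c ha.1 hc.1 hac, hmob α c a hc.1 ha.1 (Ne.symm hac), rho_comm]

lemma C0.cst (hmob : S_MOB) (hswap : S_SWAP) {f : HD} (h : C0 f) : ∃ α, f = Adm.cst α := by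
  obtain ⟨h0, h1, h2, h3⟩ := h
  rw [Un_iff] at h0 h1 h2
  refine ⟨f.1 0, HD.ext' _ _ fun z hz => ?_⟩
  rw [cst_apply]
  refine hswap f.1 f.diff (fun z hz => ⟨h0 z hz, ?_, ?_⟩) ?_ z hz
  · intro h; exact h1 z hz (by simp [h])
  · intro h; exact h2 z hz (by simp [h])
  · intro a ha c hc hac
    have := h3 (pt a) (pt_SZ a ha).pt (pt c) (pt_SZ c hc).pt
    rw [EE_iff (pt_SZ a ha) (pt_SZ c hc), EE_iff (pt_SZ c hc) (pt_SZ a ha),
      hmob _ a c ha hc hac, hmob _ c a hc ha (Ne.symm hac), rho_comm c a] at this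
    exact this

lemma CC_iff (hmob : S_MOB) (hswap : S_SWAP) (f : HD) : CC f ↔ ∃ α, f = cst α := by
  constructor
  · rintro ⟨u, hu, v, hv, rfl⟩
    obtain ⟨a, rfl⟩ := hu.cst hmob hswap
    obtain ⟨b, rfl⟩ := hv.cst hmob hswap
    exact ⟨a + b, (cst_add a b).symm⟩
  · rintro ⟨α, rfl⟩
    obtain ⟨β, hβ⟩ := (Set.Finite.infinite_compl (Set.toFinite
      ({0, 1, -1, α, α - 1, α + 1} : Set ℂ))).nonempty
    simp only [mem_compl_iff, mem_insert_iff, mem_singleton_iff, not_or] at hβ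
    obtain ⟨b0, b1, b2, b3, b4, b5⟩ := hβ
    refine ⟨cst β, C0_cst hmob β b0 b1 b2, cst (α - β), C0_cst hmob _ ?_ ?_ ?_, ?_⟩
    · intro h; exact b3 (by linear_combination -h)
    · intro h; exact b4 (by linear_combination -h)
    · intro h; exact b5 (by linear_combination -h)
    · rw [← cst_add]; congr 1; ring

end Pool.Agent.Y318.Adm
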