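import Pool.Agent.Y318.Adm.Rng

set_option autoImplicit false

open Metric Set Filter Topology

namespace Pool.Agent.Y318.Adm

lemma Un_sub_cst (h : HD) (c : ℂ) : Un (h - cst c) ↔ c ∉ h.1 '' ball (0:ℂ) 1 := by
  rw [Un_iff]
  constructor
  · rintro H ⟨z, hz, rfl⟩
    exact H z hz (by simp)
  · intro H z hz h0
    exact H ⟨z, hz, by simpa [sub_eq_zero] using h0⟩

/-- `h` is a coordinate with inverse `t` -/
structure Co (h : HD) (t : ℂ → ℂ) : Prop where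
  aut : Aut h.1 t
  sz : ∀ x ∈ ball (0:ℂ) 1, SZ (h - cst x) (t x)

lemma Hd.co (hmob : S_MOB) (hswap : S_SWAP) (hhd : S_HD) {h : HD} (H : Hd h) :
    ∃ t, Co h t := by
  obtain ⟨h1, h2, h3, h4, h5⟩ := H
  have hCC : ∀ c : ℂ, CC (cst c) := fun c => (CC_iff hmob hswap _).2 ⟨c, rfl⟩
  -- simple zeros
  have hs : ∀ a ∈ ball (0:ℂ) 1, SZ (h - cst (h.1 a)) a := by
    intro a ha
    rcases h5 (cst (h.1 a)) (hCC _) with h6 | h6
    · rw [Un_sub_cst] at h6
      exact absurd ⟨a, ha, rfl⟩ h6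
    · obtain ⟨b, hb⟩ := h6.sz
      have : a = b := (hb.zero_iff a ha).1 (by simp)
      rw [this] at hb ⊢
      exact hb
  have hinj : InjOn h.1 (ball 0 1) := by
    intro a ha b hb hab
    have := ((hs a ha).zero_iff b hb).1 (by simp [hab])
    exact this.symm
  have hder : ∀ z ∈ ball (0 : ℂ) 1, deriv h.1 z ≠ 0 := by
    intro z hz
    have h6 := (hs z hz).deriv_ne
    have h7 : (h - cst (h.1 z)).1 = fun w => h.1 w - h.1 z := by
      funext w; simp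
    rw [h7, deriv_sub_const] at h6
    exact h6
  have h0 : (0:ℂ) ∈ h.1 '' ball 0 1 := by
    by_contra hc
    rw [← Un_sub_cst, cst_zero, sub_zero] at hc
    exact h1 hc
  obtain ⟨t, ht⟩ := hhd h.1 h.diff hinj hder h0
    (by
      intro c d hcd
      rcases h2 (cst c) (hCC c) (cst d) (hCC d) (by rw [← cst_mul, hcd, cst_one]) with h6 | h6
      · exact Or.inl ((Un_sub_cst _ _).1 h6)
      · exact Or.inr ((Un_sub_cst _ _).1 h6))
    (by
      intro c hc d hd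
      by_contra hcon
      rw [← Un_sub_cst, cst_mul] at hcon
      refine h3 (cst c) (hCC c) (cst d) (hCC d) ?_ ?_ hcon
      · rw [Un_sub_cst]; exact fun h => h hc
      · rw [Un_sub_cst]; exact fun h => h hd)
    (by
      intro c hc d hd
      rw [← Un_sub_cst] at hc hd ⊢
      rw [cst_mul]
      exact h4 (cst c) (hCC c) (cst d) (hCC d) hc hd)
  refine ⟨t, ht, fun x hx => ?_⟩
  have h6 := hs (t x) (ht.2.2.2.1 hx)
  rwa [ht.2.2.2.2.2 x hx] at h6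

/-- the identity coordinate -/
noncomputable def zid : HD := mk (fun z => z) differentiableOn_id

lemma zid_image : zid.1 '' ball (0:ℂ) 1 = ball 0 1 := by
  ext z
  constructor
  · rintro ⟨w, hw, rfl⟩
    rwa [zid, mk_apply _ _ _ hw]
  · intro hz
    exact ⟨z, hz, by rw [zid, mk_apply _ _ _ hz]⟩

lemma zid_co : Co zid (fun z => z) := by
  refine ⟨⟨zid.diff, differentiableOn_id, ?_, ?_, ?_, ?_⟩, ?_⟩
  · intro z hz
    rwa [zid, mk_apply _ _ _ hz]
  · intro z hz; exact hz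
  · intro z hz; rw [zid, mk_apply _ _ _ hz]
  · intro z hz; rw [zid, mk_apply _ _ _ hz]
  · intro x hx
    refine ⟨hx, 1, ⟨1, by ring⟩, HD.ext' _ _ fun z hz => ?_⟩
    rw [coe_sub, cst_apply, zid, mk_apply _ _ _ hz, coe_mul, pt_apply _ _ hz, coe_one, mul_one]

lemma zid_Hd (hmob : S_MOB) (hswap : S_SWAP) : Hd zid := by
  have hCC : ∀ f : HD, CC f ↔ ∃ α, f = cst α := CC_iff hmob hswap
  refine ⟨?_, ?_, ?_, ?_, ?_⟩
  · rw [Un_iff]
    intro h
    refine h 0 zero_mem_ball ?_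
    rw [zid, mk_apply _ _ _ zero_mem_ball]
  · intro c hc d hd hcd
    obtain ⟨c, rfl⟩ := (hCC _).1 hc
    obtain ⟨d, rfl⟩ := (hCC _).1 hd
    rw [Un_sub_cst, Un_sub_cst, zid_image]
    rw [← cst_mul, ← cst_one] at hcd
    have hcd := cst_inj hcd
    by_contra hcon
    push Not at hcon
    rw [mem_ball_zero_iff, mem_ball_zero_iff] at hcon
    have h1 : ‖c‖ * ‖d‖ = 1 := by rw [← norm_mul, hcd, norm_one]
    nlinarith [norm_nonneg c, norm_nonneg d]
  · intro c hc d hd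
    obtain ⟨c, rfl⟩ := (hCC _).1 hc
    obtain ⟨d, rfl⟩ := (hCC _).1 hd
    rw [← cst_mul, Un_sub_cst, Un_sub_cst, Un_sub_cst, zid_image]
    simp only [mem_ball_zero_iff, not_lt, norm_mul, not_le]
    intro h1 h2
    nlinarith [norm_nonneg c, norm_nonneg d]
  · intro c hc d hd
    obtain ⟨c, rfl⟩ := (hCC _).1 hc
    obtain ⟨d, rfl⟩ := (hCC _).1 hd
    rw [← cst_mul, Un_sub_cst, Un_sub_cst, Un_sub_cst, zid_image]
    simp only [mem_ball_zero_iff, not_lt, norm_mul]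
    intro h1 h2
    nlinarith [norm_nonneg c, norm_nonneg d]
  · intro c hc
    obtain ⟨c, rfl⟩ := (hCC _).1 hc
    by_cases h : c ∈ ball (0:ℂ) 1
    · exact Or.inr (zid_co.sz c h).pt
    · left
      rwa [Un_sub_cst, zid_image]

section co

variable (hmob : S_MOB) (hswap : S_SWAP) {h : HD} {t : ℂ → ℂ} (H : Co h t)

include hmob hswap H

lemma Co.im (c : HD) : Im h c ↔ ∃ x ∈ ball (0:ℂ) 1, c = cst x := by
  unfold Im
  rw [CC_iff hmob hswap]
  constructor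
  · rintro ⟨⟨x, rfl⟩, h1⟩
    rw [Un_sub_cst, not_not] at h1
    obtain ⟨z, hz, rfl⟩ := h1
    exact ⟨_, H.aut.2.2.1 hz, rfl⟩
  · rintro ⟨x, hx, rfl⟩
    refine ⟨⟨x, rfl⟩, ?_⟩
    rw [Un_sub_cst, not_not]
    exact ⟨t x, H.aut.2.2.2.1 hx, H.aut.2.2.2.2.2 x hx⟩

lemma Co.lt (y z : ℂ) : Lt h (cst y) (cst z) ↔ ‖y‖ < ‖z‖ := by
  unfold Lt
  rw [Un_cst]
  constructor
  · rintro ⟨hz, c, hc, hy⟩
    obtain ⟨x, hx, rfl⟩ := (H.im hmob hswap c).1 hc
    rw [← cst_mul] at hy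
    rw [cst_inj hy, norm_mul]
    rw [mem_ball_zero_iff] at hx
    have : 0 < ‖z‖ := norm_pos_iff.2 hz
    nlinarith
  · intro hyz
    have hz : z ≠ 0 := by
      rintro rfl
      simp at hyz
      exact absurd hyz (not_lt.2 (norm_nonneg y))
    refine ⟨hz, cst (y / z), (H.im hmob hswap _).2 ⟨y / z, ?_, rfl⟩, ?_⟩
    · rw [mem_ball_zero_iff, norm_div, div_lt_one (norm_pos_iff.2 hz)]
      exact hyz
    · rw [← cst_mul, div_mul_cancel₀ _ hz]

lemma Co.vl (x : ℂ) (hx : x ∈ ball (0:ℂ) 1) (f y : HD) :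
    Vl h (cst x) f y ↔ y = cst (f.1 (t x)) := by
  unfold Vl
  rw [CC_iff hmob hswap, (H.sz x hx).dv]
  constructor
  · rintro ⟨⟨β, rfl⟩, h1⟩
    rw [coe_sub, cst_apply, sub_eq_zero] at h1
    rw [h1]
  · rintro rfl
    exact ⟨⟨_, rfl⟩, by simp⟩

omit hmob hswap in
lemma Co.dv2 (x : ℂ) (hx : x ∈ ball (0:ℂ) 1) (f q : HD)
    (hq : q = cst 2 * (h - cst x)) : Dv q f ↔ f.1 (t x) = 0 := by
  have h1 : SZ q (t x) := by
    obtain ⟨h2, u, hu, h3⟩ := H.sz x hx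
    refine ⟨h2, cst 2 * u, ((Un_cst 2).2 two_ne_zero).mul hu, ?_⟩
    rw [hq, h3]; ring
  exact h1.dv f

omit hmob hswap H in
lemma half_mem {x : ℂ} (hx : x ∈ ball (0:ℂ) 1) : (1 + x) / 2 ∈ ball (0:ℂ) 1 := by
  rw [mem_ball_zero_iff] at hx ⊢
  have h1 : ‖(1 + x) / 2‖ ≤ (1 + ‖x‖) / 2 := by
    rw [norm_div]
    have : ‖(2:ℂ)‖ = 2 := by simp
    rw [this]
    have := norm_add_le (1:ℂ) x
    simp only [norm_one] at this
    linarith
  linarith

lemma Co.pa (p : HD) (κ : ℂ) : PA h p (cst κ) ↔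
    ∀ x ∈ ball (0:ℂ) 1, p.1 (t ((1 + x) / 2)) = κ * p.1 (t x) := by
  unfold PA
  have key : ∀ x ∈ ball (0:ℂ) 1, ∀ f : HD, Dv (h + h - (1 + cst x)) f ↔
      f.1 (t ((1 + x) / 2)) = 0 := by
    intro x hx f
    refine H.dv2 _ (half_mem hx) f _ (HD.ext' _ _ fun z _ => ?_)
    simp
    ring
  constructor
  · intro h1 x hx
    have h2 := h1 (cst x) ((H.im hmob hswap _).2 ⟨x, hx, rfl⟩) _
      ((H.vl hmob hswap x hx p _).2 rfl)
    rw [key x hx] at h2
    simpa [sub_eq_zero] using h2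
  · intro h1 c hc y hy
    obtain ⟨x, hx, rfl⟩ := (H.im hmob hswap c).1 hc
    rw [H.vl hmob hswap x hx p] at hy
    subst hy
    rw [key x hx]
    simp [h1 x hx]

omit hmob hswap H in
lemma mulhalf_mem {w x : ℂ} (hw : w ∈ ball (0:ℂ) 1) (hx : x ∈ ball (0:ℂ) 1) :
    (1 + w) / 2 * x ∈ ball (0:ℂ) 1 := by
  have h1 := half_mem hw
  rw [mem_ball_zero_iff] at *
  rw [norm_mul]
  nlinarith [norm_nonneg x, norm_nonneg ((1 + w) / 2)]

lemma Co.b1 (w : ℂ) (hw : w ∈ ball (0:ℂ) 1) (g f : HD) : B1 h (cst w) g f ↔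
    ∀ x ∈ ball (0:ℂ) 1, 1 ≤ ‖g.1 (t x)‖ ∧ ‖f.1 (t ((1 + w) / 2 * x))‖ ≤ ‖g.1 (t x)‖ := by
  unfold B1
  have key : ∀ x ∈ ball (0:ℂ) 1, ∀ f : HD, Dv (h + h - (1 + cst w) * cst x) f ↔
      f.1 (t ((1 + w) / 2 * x)) = 0 := by
    intro x hx f
    refine H.dv2 _ (mulhalf_mem hw hx) f _ (HD.ext' _ _ fun z _ => ?_)
    simp
    ring
  constructor
  · intro h1 x hx
    obtain ⟨h2, h3⟩ := h1 (cst x) ((H.im hmob hswap _).2 ⟨x, hx, rfl⟩) _
      ((H.vl hmob hswap x hx g _).2 rfl)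
    rw [← cst_one, H.lt hmob hswap, norm_one, not_lt] at h2
    refine ⟨h2, ?_⟩
    have h4 := h3 (cst (f.1 (t ((1 + w) / 2 * x)))) ((CC_iff hmob hswap _).2 ⟨_, rfl⟩)
      ((key x hx _).2 (by simp))
    rw [H.lt hmob hswap, not_lt] at h4
    exact h4
  · intro h1 c hc y hy
    obtain ⟨x, hx, rfl⟩ := (H.im hmob hswap c).1 hc
    rw [H.vl hmob hswap x hx g] at hy
    subst hy
    obtain ⟨h2, h3⟩ := h1 x hx
    refine ⟨?_, ?_⟩
    · rwa [← cst_one, H.lt hmob hswap, norm_one, not_lt]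
    · intro z hz hdv
      obtain ⟨ζ, rfl⟩ := (CC_iff hmob hswap _).1 hz
      rw [key x hx] at hdv
      have h4 : f.1 (t ((1 + w) / 2 * x)) = ζ := by simpa [sub_eq_zero] using hdv
      rw [H.lt hmob hswap, not_lt, ← h4]
      exact h3

lemma Co.b2 (w : ℂ) (hw : w ∈ ball (0:ℂ) 1) (g p : HD) : B2 h (cst w) g p ↔
    ‖g.1 (t 0)‖ ≤ ‖p.1 (t w)‖ := by
  unfold B2
  constructor
  · intro h1
    have h2 := h1 _ (by rw [← cst_zero]; exact (H.vl hmob hswap 0 zero_mem_ball g _).2 rfl) _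
      ((H.vl hmob hswap w hw p _).2 rfl)
    rwa [H.lt hmob hswap, not_lt] at h2
  · intro h1 y hy z hz
    rw [← cst_zero, H.vl hmob hswap 0 zero_mem_ball g] at hy
    rw [H.vl hmob hswap w hw p] at hz
    subst hy hz
    rwa [H.lt hmob hswap, not_lt]

end co

theorem NA_iff (hmob : S_MOB) (hswap : S_SWAP) (hhd : S_HD) (hex : S_EX) (hup : S_UP) (f : HD) :
    NA f ↔ NonAdm f.1 := by
  constructor
  · rintro ⟨h, hh, k, hk, p, hp, hw⟩
    obtain ⟨t, H⟩ := hh.co hmob hswap hhd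
    obtain ⟨κ, rfl⟩ := (CC_iff hmob hswap _).1 hk
    rw [H.pa hmob hswap] at hp
    refine hup f.1 h.1 t f.diff H.aut ⟨fun x => p.1 (t x), κ, ?_, hp, ?_⟩
    · exact p.diff.comp H.aut.2.1 H.aut.2.2.2.1
    · intro w hwb
      obtain ⟨g, _, hg1, hg2⟩ := hw (cst w) ((H.im hmob hswap _).2 ⟨w, hwb, rfl⟩)
      rw [H.b1 hmob hswap w hwb] at hg1
      rw [H.b2 hmob hswap w hwb] at hg2
      exact ⟨fun x => g.1 (t x), g.diff.comp H.aut.2.1 H.aut.2.2.2.1, hg1, hg2⟩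
  · intro hf
    obtain ⟨P, κ, hP, hPk, hG⟩ := hex f.1 f.diff hf
    have H := zid_co
    refine ⟨zid, zid_Hd hmob hswap, cst κ, (CC_iff hmob hswap _).2 ⟨κ, rfl⟩, mk P hP, ?_, ?_⟩
    · rw [H.pa hmob hswap]
      intro x hx
      rw [mk_apply _ _ _ (half_mem hx), mk_apply _ _ _ hx]
      exact hPk x hx
    · intro c hc
      obtain ⟨w, hw, rfl⟩ := (H.im hmob hswap c).1 hc
      obtain ⟨G, hGd, hG1, hG2⟩ := hG w hw
      refine ⟨mk G hGd, ?_, ?_, ?_⟩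
      · rw [Un_iff]
        intro z hz h0
        rw [mk_apply _ _ _ hz] at h0
        have := (hG1 z hz).1
        rw [h0, norm_zero] at this
        linarith
      · rw [H.b1 hmob hswap w hw]
        intro x hx
        rw [mk_apply _ _ _ hx]
        exact hG1 x hx
      · rw [H.b2 hmob hswap w hw, mk_apply _ _ _ zero_mem_ball, mk_apply _ _ _ hw]
        exact hG2

theorem final (hmob : S_MOB) (hswap : S_SWAP) (hhd : S_HD) (hex : S_EX) (hup : S_UP) :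
    ∃ φ : FirstOrder.Language.ring.Formula (Fin 1),
      ∀ f : ↥(Subring.closure {g : ℂ → ℂ | DifferentiableOn ℂ g (Metric.ball (0:ℂ) 1) ∧
                ∀ z ∉ Metric.ball (0:ℂ) 1, g z = g 0}),
        (@FirstOrder.Language.Formula.Realize FirstOrder.Language.ring
            ↥(Subring.closure {g : ℂ → ℂ | DifferentiableOn ℂ g (Metric.ball (0:ℂ) 1) ∧
                ∀ z ∉ Metric.ball (0:ℂ) 1, g z = g 0})
            (FirstOrder.Ring.compatibleRingOfRing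
              ↥(Subring.closure {g : ℂ → ℂ | DifferentiableOn ℂ g (Metric.ball (0:ℂ) 1) ∧
                ∀ z ∉ Metric.ball (0:ℂ) 1, g z = g 0})).toStructure
            (Fin 1) φ (fun _ => f)) ↔
        ¬ Asymptotics.IsBigO (nhdsWithin (1:ℝ) (Set.Iio 1))
            (fun r : ℝ => (2 * Real.pi)⁻¹ *
              ∫ θ in (0:ℝ)..(2 * Real.pi),
                Real.posLog ‖(f : ℂ → ℂ) ((r : ℂ) * Complex.exp ((θ : ℂ) * Complex.I))‖)
            (fun r : ℝ => Real.log (1 - r)⁻¹) := by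
  refine ⟨theFormula, fun f => ?_⟩
  refine (realize_theFormula HD f).trans ?_
  rw [NA_iff hmob hswap hhd hex hup f]
  rfl

end Pool.Agent.Y318.Adm
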